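import Mathlib

/-!
# Distinct patterns of restricted growth functions that are `k`-Wilf equivalent for every `k`

For `1 ≤ i < j` the patterns `1^i 2 1^j` and `1^j 2 1^i` are `k`-Wilf equivalent for every `k`;
the smallest pair is `1121`, `1211`.

Proof. A restricted growth function `w` is the same as the set `P` of the positions of its letters
`1`, which contains the first position, together with the restricted growth function `w'` obtained
by deleting the letters `1` and subtracting `1` from the others. The copies of `1^i 2 1^j` in `w`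
are those in `w'` and those whose letter `1` is played by the letter `1` of `w`; the number of the
latter depends on `P` only, and reflecting `P` in the interval from the first to the last letter
`1` turns it into the corresponding number for `1^j 2 1^i`. Induction on the length then gives a
bijection from the restricted growth functions to themselves.
-/

open Finset

namespace Pool.Agent.Results.MP_2348bc_co.KWilfForEveryK

/-- A word `w : α → ℕ` (for the statement, `α = Fin n`, so `w = w_0 ⋯ w_(n-1)`) is a restricted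
growth function: its letters are positive and each letter is at most one more than the maximum of
the earlier ones (the maximum of no letters being `0`, so the first letter is `1`). -/
def IsRGF {α : Type*} [Fintype α] [LinearOrder α] (w : α → ℕ) : Prop :=
  ∀ x, 1 ≤ w x ∧ w x ≤ 1 + (univ.filter (· < x)).sup w

/-- The number of copies of the pattern `v` in the word `w`: the number of strictly increasing
sequences of positions at which `w` is in the same relative order as `v`. -/
noncomputable def copies {α : Type*} [LinearOrder α] {m : ℕ} (v : Fin m → ℕ) (w : α → ℕ) : ℕ :=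
  Nat.card {f : Fin m ↪o α // ∀ a b, (w (f a) < w (f b) ↔ v a < v b) ∧
    (w (f a) = w (f b) ↔ v a = v b)}

/-- `R n k v` is the set of restricted growth functions of length `n` with exactly `k` copies of
the pattern `v`. -/
def R {m : ℕ} (n k : ℕ) (v : Fin m → ℕ) : Set (Fin n → ℕ) := {w | IsRGF w ∧ copies v w = k}

/-- The word `1 ⋯ 1 2 1 ⋯ 1` of length `m` whose letter `2` is preceded by `i` letters `1`. -/
def hill (m i : ℕ) : Fin m → ℕ := fun a => if a.val = i then 2 else 1

/-- The restricted growth functions on `α`. -/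
abbrev RGF (α : Type) [Fintype α] [LinearOrder α] := {w : α → ℕ // IsRGF w}

section general

variable {α β : Type} [Fintype α] [LinearOrder α] [Fintype β] [LinearOrder β]

lemma isRGF_comp (e : α ≃o β) (w : β → ℕ) (hw : IsRGF w) : IsRGF (w ∘ e) := by
  intro x
  refine ⟨(hw (e x)).1, (hw (e x)).2.trans ?_⟩
  refine Nat.add_le_add_left ?_ _
  refine Finset.sup_le ?_
  intro y hy
  simp only [mem_filter, mem_univ, true_and] at hy
  have : (w ∘ e) (e.symm y) ≤ (univ.filter (· < x)).sup (w ∘ e) := by
    refine Finset.le_sup (f := w ∘ e) ?_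
    simp only [mem_filter, mem_univ, true_and]
    rw [← e.lt_iff_lt, e.apply_symm_apply]
    exact hy
  simpa using this

omit [Fintype α] [Fintype β] in
lemma copies_comp {m : ℕ} (v : Fin m → ℕ) (e : α ≃o β) (w : β → ℕ) :
    copies v (w ∘ e) = copies v w := by
  refine Nat.card_congr ⟨fun f => ⟨f.1.trans e.toOrderEmbedding, fun a b => f.2 a b⟩,
    fun f => ⟨f.1.trans e.symm.toOrderEmbedding, fun a b => ?_⟩, ?_, ?_⟩
  · simpa using f.2 a b
  · intro f
    ext a
    simp
  · intro f
    ext a
    simp

/-- Relabelling by an order isomorphism. -/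
def relabel (e : α ≃o β) : RGF α ≃ RGF β where
  toFun w := ⟨w.1 ∘ e.symm, isRGF_comp e.symm w.1 w.2⟩
  invFun w := ⟨w.1 ∘ e, isRGF_comp e w.1 w.2⟩
  left_inv w := by ext x; simp
  right_inv w := by ext x; simp

lemma copies_relabel {m : ℕ} (v : Fin m → ℕ) (e : α ≃o β) (w : RGF α) :
    copies v (relabel e w).1 = copies v w.1 := copies_comp v e.symm w.1

/-- The sets containing the first position. -/
abbrev Good (α : Type) [Fintype α] [LinearOrder α] :=
  {P : Finset α // ∀ x, x ∉ P → ∃ y ∈ P, y < x}

/-- The set of positions of the letters `1`. -/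
def ones (w : RGF α) : Good α := ⟨univ.filter fun x => w.1 x = 1, by
  intro x hx
  simp only [mem_filter, mem_univ, true_and] at hx ⊢
  -- the smallest position
  have hne : (univ : Finset α).Nonempty := ⟨x, mem_univ x⟩
  set y := univ.min' hne with hy
  have hle : ∀ z, y ≤ z := fun z => Finset.min'_le _ _ (mem_univ z)
  have h1 : w.1 y = 1 := by
    have h2 := w.2 y
    have h3 : univ.filter (· < y) = (∅ : Finset α) := by
      ext z
      simp only [mem_filter, mem_univ, true_and, Finset.notMem_empty, iff_false, not_lt]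
      exact hle z
    rw [h3, Finset.sup_empty] at h2
    simp only [bot_eq_zero'] at h2
    omega
  refine ⟨y, h1, lt_of_le_of_ne (hle x) ?_⟩
  intro h
  rw [h] at h1
  exact hx h1⟩

lemma mem_ones {w : RGF α} {x : α} : x ∈ (ones w).1 ↔ w.1 x = 1 := by
  simp [ones]

lemma mem_iff_of_ones {P : Good α} (w : {w : RGF α // ones w = P}) (x : α) :
    x ∈ P.1 ↔ w.1.1 x = 1 := by
  obtain ⟨w, rfl⟩ := w
  exact mem_ones

/-- Deleting the letters `1` and subtracting `1` from the others. -/
def lower (P : Good α) (w : α → ℕ) : {x : α // x ∉ P.1} → ℕ := fun x => w x.1 - 1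

/-- The inverse operation. -/
def raise (P : Good α) (w : {x : α // x ∉ P.1} → ℕ) : α → ℕ :=
  fun x => if h : x ∈ P.1 then 1 else w ⟨x, h⟩ + 1

lemma raise_mem (P : Good α) (w : {x : α // x ∉ P.1} → ℕ) {x : α} (h : x ∈ P.1) :
    raise P w x = 1 := by simp [raise, h]

lemma raise_notMem (P : Good α) (w : {x : α // x ∉ P.1} → ℕ) {x : α} (h : x ∉ P.1) :
    raise P w x = w ⟨x, h⟩ + 1 := by simp [raise, h]

lemma isRGF_lower {P : Good α} (w : {w : RGF α // ones w = P}) : IsRGF (lower P w.1.1) := by
  intro x
  have hx : w.1.1 x.1 ≠ 1 := fun h => x.2 ((mem_iff_of_ones w _).2 h)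
  have h1 := w.1.2 x.1
  have hl : lower P w.1.1 x = w.1.1 x.1 - 1 := rfl
  rw [hl]
  refine ⟨by omega, ?_⟩
  obtain ⟨y, hy, hyx⟩ := P.2 x.1 x.2
  have hy1 : w.1.1 y = 1 := (mem_iff_of_ones w y).1 hy
  have hmem : y ∈ univ.filter (· < x.1) := by simpa using hyx
  obtain ⟨z, hz, hz2⟩ := Finset.exists_mem_eq_sup (univ.filter (· < x.1)) ⟨y, hmem⟩ w.1.1
  rw [hz2] at h1
  by_cases hz1 : w.1.1 z = 1
  · omega
  · have hzP : z ∉ P.1 := fun h => hz1 ((mem_iff_of_ones w z).1 h)
    have h3 : lower P w.1.1 ⟨z, hzP⟩ ≤ (univ.filter (· < x)).sup (lower P w.1.1) := by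
      refine Finset.le_sup ?_
      simp only [mem_filter, mem_univ, true_and] at hz ⊢
      exact hz
    have h5 : lower P w.1.1 ⟨z, hzP⟩ = w.1.1 z - 1 := rfl
    have h4 := (w.1.2 z).1
    omega

lemma isRGF_raise (P : Good α) (w : RGF {x : α // x ∉ P.1}) : IsRGF (raise P w.1) := by
  intro x
  by_cases h : x ∈ P.1
  · rw [raise_mem P w.1 h]
    exact ⟨le_refl _, Nat.le_add_right _ _⟩
  · rw [raise_notMem P w.1 h]
    refine ⟨Nat.le_add_left _ _, ?_⟩
    rw [add_comm 1]
    refine Nat.add_le_add_right ?_ 1
    have h1 := (w.2 ⟨x, h⟩).2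
    obtain ⟨y, hy, hyx⟩ := P.2 x h
    have hy1 : 1 ≤ (univ.filter (· < x)).sup (raise P w.1) := by
      have h2 : raise P w.1 y ≤ (univ.filter (· < x)).sup (raise P w.1) :=
        Finset.le_sup (by simpa using hyx)
      rw [raise_mem P w.1 hy] at h2
      exact h2
    rcases (univ.filter (· < (⟨x, h⟩ : {x : α // x ∉ P.1}))).eq_empty_or_nonempty with h4 | h4
    · rw [h4, Finset.sup_empty] at h1
      simp only [bot_eq_zero'] at h1
      omega
    · obtain ⟨z, hz, hz2⟩ := Finset.exists_mem_eq_sup _ h4 w.1
      rw [hz2] at h1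
      have h5 : raise P w.1 z.1 ≤ (univ.filter (· < x)).sup (raise P w.1) := by
        refine Finset.le_sup ?_
        simp only [mem_filter, mem_univ, true_and] at hz ⊢
        exact hz
      rw [raise_notMem P w.1 z.2] at h5
      have h6 : w.1 ⟨z.1, z.2⟩ = w.1 z := rfl
      omega

lemma ones_raise (P : Good α) (w : RGF {x : α // x ∉ P.1}) :
    ones ⟨raise P w.1, isRGF_raise P w⟩ = P := by
  apply Subtype.ext
  ext x
  rw [mem_ones]
  by_cases h : x ∈ P.1
  · simp [raise_mem P w.1 h, h]
  · have h1 : raise P w.1 x = w.1 ⟨x, h⟩ + 1 := raise_notMem P w.1 h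
    have h2 := (w.2 ⟨x, h⟩).1
    simp only [h, iff_false]
    omega

/-- A restricted growth function with given positions of the letters `1` is the same as a
restricted growth function on the other positions. -/
def fib (P : Good α) : {w : RGF α // ones w = P} ≃ RGF {x : α // x ∉ P.1} where
  toFun w := ⟨lower P w.1.1, isRGF_lower w⟩
  invFun w := ⟨⟨raise P w.1, isRGF_raise P w⟩, ones_raise P w⟩
  left_inv w := by
    apply Subtype.ext
    apply Subtype.ext
    funext x
    show raise P (lower P w.1.1) x = w.1.1 x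
    by_cases h : x ∈ P.1
    · rw [raise_mem P _ h]
      exact ((mem_iff_of_ones w x).1 h).symm
    · rw [raise_notMem P _ h]
      have := (w.1.2 x).1
      have h1 : lower P w.1.1 ⟨x, h⟩ = w.1.1 x - 1 := rfl
      omega
  right_inv w := by
    apply Subtype.ext
    funext x
    show raise P w.1 x.1 - 1 = w.1 x
    rw [raise_notMem P _ x.2]
    rfl

/-- The number of copies of `hill m i` whose letter `1` is played by a letter `1`. -/
noncomputable def low (m i : ℕ) (P : Finset α) : ℕ :=
  Nat.card {f : Fin m ↪o α // ∀ a, f a ∈ P ↔ a.val ≠ i}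

lemma hill_lt {m i : ℕ} (a b : Fin m) : hill m i a < hill m i b ↔ (a.val ≠ i ∧ b.val = i) := by
  unfold hill; split_ifs <;> simp_all

lemma hill_eq {m i : ℕ} (a b : Fin m) : hill m i a = hill m i b ↔ (a.val = i ↔ b.val = i) := by
  unfold hill; split_ifs <;> simp_all

lemma copies_eq {m i : ℕ} (hi : 1 ≤ i) (him : i < m) {P : Good α}
    (w : {w : RGF α // ones w = P}) :
    copies (hill m i) w.1.1 = low m i P.1 + copies (hill m i) (fib P w).1 := by
  classical
  have hP := mem_iff_of_ones w
  have h0m : 0 < m := by omega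
  -- the two kinds of copies
  have h1 : ∀ f : Fin m ↪o α, (∀ a b, (w.1.1 (f a) < w.1.1 (f b) ↔ hill m i a < hill m i b) ∧
      (w.1.1 (f a) = w.1.1 (f b) ↔ hill m i a = hill m i b)) ↔
      ((∀ a, f a ∈ P.1 ↔ a.val ≠ i) ∨ ((∀ a, f a ∉ P.1) ∧
        ∀ a b, (w.1.1 (f a) < w.1.1 (f b) ↔ hill m i a < hill m i b) ∧
      (w.1.1 (f a) = w.1.1 (f b) ↔ hill m i a = hill m i b))) := by
    intro f
    constructor
    · intro h
      by_cases hex : ∃ a, f a ∈ P.1
      · left
        obtain ⟨a, ha⟩ := hex
        have ha1 : w.1.1 (f a) = 1 := (hP _).1 ha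
        have hai : a.val ≠ i := by
          intro hai
          -- then the letter at position `0` would be smaller
          have h2 : hill m i ⟨0, h0m⟩ < hill m i a := (hill_lt _ _).2 ⟨by
            show 0 ≠ i
            omega, hai⟩
          have h3 := ((h ⟨0, h0m⟩ a).1).2 h2
          have h4 := (w.1.2 (f ⟨0, h0m⟩)).1
          omega
        intro b
        rw [hP]
        constructor
        · intro hb hbi
          have h2 : hill m i a = hill m i b := ((h a b).2).1 (by rw [ha1, hb])
          rw [hill_eq] at h2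
          exact hai (h2.2 hbi)
        · intro hb
          have h2 : hill m i b = hill m i a := by rw [hill_eq]; tauto
          rw [((h b a).2).2 h2, ha1]
      · right
        push Not at hex
        exact ⟨hex, h⟩
    · rintro (h | h)
      · intro a b
        have hval : ∀ a : Fin m, (a.val ≠ i → w.1.1 (f a) = 1) ∧
            (a.val = i → 2 ≤ w.1.1 (f a)) := by
          intro a
          refine ⟨fun ha => (hP _).1 ((h a).2 ha), fun ha => ?_⟩
          have h2 : w.1.1 (f a) ≠ 1 := fun h3 => (h a).1 ((hP _).2 h3) ha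
          have h3 := (w.1.2 (f a)).1
          omega
        have hinj : a.val = i → b.val = i → a = b := fun h2 h3 => Fin.ext (h2.trans h3.symm)
        rw [hill_lt, hill_eq]
        by_cases ha : a.val = i
        · have ha2 := (hval a).2 ha
          by_cases hb : b.val = i
          · have := hinj ha hb
            subst this
            simp [ha]
          · have hb1 := (hval b).1 hb
            constructor
            · constructor
              · intro h; omega
              · intro h; exact absurd ha h.1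
            · constructor
              · intro h; omega
              · intro h; exact absurd (h.1 ha) hb
        · have ha1 := (hval a).1 ha
          by_cases hb : b.val = i
          · have hb2 := (hval b).2 hb
            constructor
            · constructor
              · intro _; exact ⟨ha, hb⟩
              · intro _; omega
            · constructor
              · intro h; omega
              · intro h; exact absurd (h.2 hb) ha
          · have hb1 := (hval b).1 hb
            constructor
            · constructor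
              · intro h; omega
              · intro h; exact absurd h.2 hb
            · constructor
              · intro _; tauto
              · intro _; omega
      · exact h.2
  have hdisj : Disjoint (fun f : Fin m ↪o α => ∀ a, f a ∈ P.1 ↔ a.val ≠ i)
      (fun f : Fin m ↪o α => (∀ a, f a ∉ P.1) ∧
        ∀ a b, (w.1.1 (f a) < w.1.1 (f b) ↔ hill m i a < hill m i b) ∧
      (w.1.1 (f a) = w.1.1 (f b) ↔ hill m i a = hill m i b)) := by
    rw [Pi.disjoint_iff]
    intro f
    rw [Prop.disjoint_iff]
    rintro ⟨h2, h3, -⟩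
    exact h3 ⟨0, h0m⟩ ((h2 ⟨0, h0m⟩).2 (by show 0 ≠ i; omega))
  have h2 : copies (hill m i) w.1.1 = Nat.card ({f : Fin m ↪o α // ∀ a, f a ∈ P.1 ↔ a.val ≠ i} ⊕
      {f : Fin m ↪o α // (∀ a, f a ∉ P.1) ∧
        ∀ a b, (w.1.1 (f a) < w.1.1 (f b) ↔ hill m i a < hill m i b) ∧
      (w.1.1 (f a) = w.1.1 (f b) ↔ hill m i a = hill m i b)}) :=
    Nat.card_congr ((Equiv.subtypeEquivRight h1).trans (subtypeOrEquiv _ _ hdisj))
  rw [h2, Nat.card_sum]
  congr 1
  -- copies avoiding the letters `1`
  have hval : ∀ x : {x : α // x ∉ P.1}, w.1.1 x.1 = (fib P w).1 x + 1 := by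
    intro x
    have h3 := (w.1.2 x.1).1
    have h4 : (fib P w).1 x = w.1.1 x.1 - 1 := rfl
    omega
  refine Nat.card_congr ⟨fun f => ⟨OrderEmbedding.ofStrictMono
      (fun a => (⟨f.1 a, f.2.1 a⟩ : {x : α // x ∉ P.1}))
      (fun a b hab => f.1.strictMono hab), fun a b => ?_⟩,
    fun g => ⟨g.1.trans (OrderEmbedding.subtype _), fun a => (g.1 a).2, fun a b => ?_⟩, ?_, ?_⟩
  · have h3 := f.2.2 a b
    have h4 := hval ⟨f.1 a, f.2.1 a⟩
    have h5 := hval ⟨f.1 b, f.2.1 b⟩
    simp only at h4 h5
    rw [h4, h5, Nat.add_lt_add_iff_right, Nat.add_right_cancel_iff] at h3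
    exact h3
  · have h3 := g.2 a b
    have h4 := hval (g.1 a)
    have h5 := hval (g.1 b)
    show (w.1.1 (g.1 a).1 < w.1.1 (g.1 b).1 ↔ _) ∧ (w.1.1 (g.1 a).1 = w.1.1 (g.1 b).1 ↔ _)
    rw [h4, h5, Nat.add_lt_add_iff_right, Nat.add_right_cancel_iff]
    exact h3
  · intro f
    rfl
  · intro g
    rfl

end general

section reflection

variable {N : ℕ}

/-- The largest element of a set of positions. -/
def top (P : Finset (Fin N)) : ℕ := P.sup fun x => x.val

/-- The reflection of a set of positions in the interval from the first position to the largest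
element. -/
def rfl' (P : Finset (Fin N)) : Finset (Fin N) :=
  univ.filter fun y => ∃ x ∈ P, x.val + y.val = top P

lemma le_top {P : Finset (Fin N)} {x : Fin N} (hx : x ∈ P) : x.val ≤ top P :=
  Finset.le_sup (f := fun x : Fin N => x.val) hx

lemma top_lt (P : Finset (Fin N)) (hN : 0 < N) : top P < N := by
  unfold top
  rw [Finset.sup_lt_iff (by simpa using hN)]
  intro x _
  exact x.2

lemma mem_rfl' {P : Finset (Fin N)} {y : Fin N} :
    y ∈ rfl' P ↔ ∃ x ∈ P, x.val + y.val = top P := by simp [rfl']

lemma zero_mem {P : Good (Fin N)} (hN : 0 < N) : (⟨0, hN⟩ : Fin N) ∈ P.1 := by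
  by_contra h
  obtain ⟨y, -, hy⟩ := P.2 _ h
  exact absurd hy (by simp [Fin.lt_def])

lemma exists_top {P : Finset (Fin N)} (hP : P.Nonempty) : ∃ x ∈ P, x.val = top P := by
  obtain ⟨x, hx, h⟩ := Finset.exists_mem_eq_sup P hP (fun x : Fin N => x.val)
  exact ⟨x, hx, h.symm⟩

lemma top_rfl' (P : Good (Fin N)) : top (rfl' P.1) = top P.1 := by
  rcases Nat.eq_zero_or_pos N with hN | hN
  · subst hN
    have h1 : P.1 = ∅ := Finset.eq_empty_of_isEmpty _
    have h2 : rfl' P.1 = ∅ := Finset.eq_empty_of_isEmpty _
    rw [h2, h1]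
  · apply le_antisymm
    · refine Finset.sup_le ?_
      intro y hy
      obtain ⟨x, -, h⟩ := mem_rfl'.1 hy
      show y.val ≤ top P.1
      omega
    · have h : (⟨top P.1, top_lt P.1 hN⟩ : Fin N) ∈ rfl' P.1 :=
        mem_rfl'.2 ⟨⟨0, hN⟩, zero_mem hN, by simp⟩
      exact le_top h

lemma rfl'_rfl' (P : Good (Fin N)) : rfl' (rfl' P.1) = P.1 := by
  ext y
  rw [mem_rfl', top_rfl']
  constructor
  · rintro ⟨x, hx, h⟩
    obtain ⟨z, hz, h'⟩ := mem_rfl'.1 hx
    have : y = z := Fin.ext (by omega)
    rw [this]; exact hz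
  · intro hy
    have h1 := le_top hy
    have h2 : 0 < N := by have := y.2; omega
    have h3 := top_lt P.1 h2
    refine ⟨⟨top P.1 - y.val, by omega⟩, mem_rfl'.2 ⟨y, hy, ?_⟩, ?_⟩
    · show y.val + (top P.1 - y.val) = top P.1
      omega
    · show (top P.1 - y.val) + y.val = top P.1
      omega

/-- The reflection as an involution of `Good (Fin N)`. -/
def reflG (P : Good (Fin N)) : Good (Fin N) := ⟨rfl' P.1, by
  intro x hx
  have hN : 0 < N := by have := x.2; omega
  have h0 : (⟨0, hN⟩ : Fin N) ∈ rfl' P.1 := by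
    obtain ⟨z, hz, h⟩ := exists_top ⟨_, zero_mem (P := P) hN⟩
    exact mem_rfl'.2 ⟨z, hz, by simpa using h⟩
  refine ⟨⟨0, hN⟩, h0, ?_⟩
  rw [Fin.lt_def]
  show 0 < x.val
  rcases Nat.eq_zero_or_pos x.val with h | h
  · exfalso
    apply hx
    have : x = ⟨0, hN⟩ := Fin.ext h
    rw [this]; exact h0
  · exact h⟩

lemma reflG_reflG (P : Good (Fin N)) : reflG (reflG P) = P := Subtype.ext (rfl'_rfl' P)

/-- The reflection as an equivalence. -/
def reflE : Good (Fin N) ≃ Good (Fin N) := ⟨reflG, reflG, reflG_reflG, reflG_reflG⟩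

lemma card_rfl'_le (P : Finset (Fin N)) : (rfl' P).card ≤ P.card := by
  classical
  rcases Nat.eq_zero_or_pos N with hN | hN
  · subst hN
    simp [Finset.eq_empty_of_isEmpty]
  · have h : rfl' P ⊆ P.image fun x => (⟨top P - x.val, by
        have := top_lt P hN; omega⟩ : Fin N) := by
      intro y hy
      obtain ⟨x, hx, h⟩ := mem_rfl'.1 hy
      refine Finset.mem_image.2 ⟨x, hx, Fin.ext ?_⟩
      show top P - x.val = y.val
      omega
    exact (Finset.card_le_card h).trans Finset.card_image_le

lemma card_reflG (P : Good (Fin N)) : (reflG P).1.card = P.1.card := by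
  apply le_antisymm
  · exact card_rfl'_le P.1
  · have := card_rfl'_le (reflG P).1
    rwa [show rfl' (reflG P).1 = P.1 from rfl'_rfl' P] at this

lemma low_le {m i j : ℕ} (hm : i + j + 1 = m) (hj : 1 ≤ j) (P : Finset (Fin N)) :
    low m i P ≤ low m j (rfl' P) := by
  classical
  -- all elements of an embedding are at most `top P`
  have hle : ∀ f : {f : Fin m ↪o Fin N // ∀ a, f a ∈ P ↔ a.val ≠ i}, ∀ a, (f.1 a).val ≤ top P := by
    intro f a
    by_cases ha : a.val = i
    · have h1 : i + 1 < m := by omega
      have h2 : f.1 ⟨i + 1, h1⟩ ∈ P := (f.2 _).2 (by show i + 1 ≠ i; omega)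
      have h3 := le_top h2
      have h4 : f.1 a < f.1 ⟨i + 1, h1⟩ := f.1.strictMono (by
        rw [Fin.lt_def]; show a.val < i + 1; omega)
      rw [Fin.lt_def] at h4
      omega
    · exact le_top ((f.2 a).2 ha)
  have hN : ∀ f : {f : Fin m ↪o Fin N // ∀ a, f a ∈ P ↔ a.val ≠ i}, top P < N := by
    intro f
    refine top_lt P ?_
    have := (f.1 ⟨0, by omega⟩).2
    omega
  refine Nat.card_le_card_of_injective
    (fun f => (⟨OrderEmbedding.ofStrictMono
      (fun a => (⟨top P - (f.1 a.rev).val, by have := hN f; omega⟩ : Fin N)) ?_, ?_⟩ :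
      {f : Fin m ↪o Fin N // ∀ a, f a ∈ rfl' P ↔ a.val ≠ j})) ?_
  · intro a b hab
    have h1 : f.1 b.rev < f.1 a.rev := f.1.strictMono (Fin.rev_lt_rev.2 hab)
    have h2 := hle f a.rev
    rw [Fin.lt_def] at h1 ⊢
    show top P - (f.1 a.rev).val < top P - (f.1 b.rev).val
    omega
  · intro a
    have h1 : (f.1 a.rev ∈ P) ↔ (a.rev.val ≠ i) := f.2 a.rev
    have h2 := hle f a.rev
    have h3 : a.rev.val ≠ i ↔ a.val ≠ j := by
      rw [Fin.val_rev]; have := a.2; omega
    rw [← h3, ← h1, mem_rfl']
    constructor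
    · rintro ⟨x, hx, h⟩
      have h4 : x.val + (top P - (f.1 a.rev).val) = top P := h
      have : x = f.1 a.rev := Fin.ext (by omega)
      rw [← this]; exact hx
    · intro h
      refine ⟨f.1 a.rev, h, ?_⟩
      show (f.1 a.rev).val + (top P - (f.1 a.rev).val) = top P
      omega
  · intro f g hfg
    apply Subtype.ext
    ext a
    have h1 := congrArg (fun h => (h.1 a.rev).val) hfg
    have h2 : top P - (f.1 a.rev.rev).val = top P - (g.1 a.rev.rev).val := h1
    rw [Fin.rev_rev] at h2
    have h3 := hle f a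
    have h4 := hle g a
    omega

lemma low_reflG {m i j : ℕ} (hm : i + j + 1 = m) (hi : 1 ≤ i) (hj : 1 ≤ j) (P : Good (Fin N)) :
    low m j (reflG P).1 = low m i P.1 := by
  apply le_antisymm
  · have := low_le (m := m) (i := j) (j := i) (by omega) hi (reflG P).1
    rwa [show rfl' (reflG P).1 = P.1 from rfl'_rfl' P] at this
  · exact low_le hm hj P.1

end reflection

/-- The bijection. -/
theorem main {m i j : ℕ} (hm : i + j + 1 = m) (hi : 1 ≤ i) (hj : 1 ≤ j) : ∀ N : ℕ,
    ∃ e : RGF (Fin N) ≃ RGF (Fin N), ∀ w, copies (hill m j) (e w).1 = copies (hill m i) w.1 := by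
  intro N
  induction N using Nat.strong_induction_on with
  | _ N ih =>
    rcases Nat.eq_zero_or_pos N with hN | hN
    · subst hN
      refine ⟨Equiv.refl _, fun w => ?_⟩
      have h : ∀ p : (Fin m ↪o Fin 0) → Prop, Nat.card {f : Fin m ↪o Fin 0 // p f} = 0 := by
        intro p
        have : IsEmpty {f : Fin m ↪o Fin 0 // p f} := ⟨fun f => (f.1 ⟨0, by omega⟩).elim0⟩
        exact Nat.card_of_isEmpty
      unfold copies
      rw [h, h]
    · -- the equivalences on the other positions
      have hg : ∀ P : Good (Fin N), ∃ g : RGF {x : Fin N // x ∉ P.1} ≃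
          RGF {x : Fin N // x ∉ (reflG P).1}, ∀ w,
            copies (hill m j) (g w).1 = copies (hill m i) w.1 := by
        intro P
        have hpos : 0 < P.1.card := Finset.card_pos.2 ⟨_, zero_mem hN⟩
        obtain ⟨e, he⟩ := ih (N - P.1.card) (by omega)
        have c1 : Fintype.card {x : Fin N // x ∉ P.1} = N - P.1.card := by
          rw [Fintype.card_subtype_compl, Fintype.card_fin, Fintype.card_coe]
        have c2 : Fintype.card {x : Fin N // x ∉ (reflG P).1} = N - P.1.card := by
          rw [Fintype.card_subtype_compl, Fintype.card_fin, Fintype.card_coe, card_reflG]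
        let a := Fintype.orderIsoFinOfCardEq {x : Fin N // x ∉ P.1} c1
        let b := Fintype.orderIsoFinOfCardEq {x : Fin N // x ∉ (reflG P).1} c2
        refine ⟨(relabel a.symm).trans (e.trans (relabel b)), fun w => ?_⟩
        rw [Equiv.trans_apply, Equiv.trans_apply, copies_relabel, he, copies_relabel]
      choose g hg using hg
      refine ⟨(Equiv.sigmaFiberEquiv ones).symm.trans ((Equiv.sigmaCongr reflE
        (fun P => (fib P).trans ((g P).trans (fib (reflG P)).symm))).trans
          (Equiv.sigmaFiberEquiv ones)), fun w => ?_⟩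
      have h1 := copies_eq (m := m) (i := i) hi (by omega) (⟨w, rfl⟩ : {w' // ones w' = ones w})
      have h2 := copies_eq (m := m) (i := j) hj (by omega)
        ((fib (reflG (ones w))).symm (g (ones w) (fib (ones w) ⟨w, rfl⟩)))
      rw [Equiv.apply_symm_apply, low_reflG hm hi hj, hg] at h2
      rw [h1, ← h2]
      rfl

lemma isRGF_hill {m i : ℕ} (hi : 1 ≤ i) : IsRGF (hill m i) := by
  intro x
  have h1 : 1 ≤ hill m i x ∧ hill m i x ≤ 2 ∧ (x.val ≠ i → hill m i x = 1) := by
    unfold hill; split_ifs <;> simp_all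
  refine ⟨h1.1, ?_⟩
  by_cases hx : x.val = i
  · have h2 : hill m i ⟨0, by have := x.2; omega⟩ ≤ (univ.filter (· < x)).sup (hill m i) := by
      refine Finset.le_sup ?_
      simp only [mem_filter, mem_univ, true_and]
      rw [Fin.lt_def]
      show 0 < x.val
      omega
    have h3 : hill m i ⟨0, by have := x.2; omega⟩ = 1 := by
      unfold hill
      rw [if_neg]
      show ¬ (0 = i)
      omega
    omega
  · have := h1.2.2 hx
    omega

/-- **Distinct patterns that are `k`-Wilf equivalent for every `k`.** For all `1 ≤ i < j` the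
patterns `1^i 2 1^j` and `1^j 2 1^i` are restricted growth functions, they are distinct, and for
all `n` and `k` the numbers of restricted growth functions of length `n` with exactly `k` copies
of the one and of the other are equal. -/
theorem result (i j : ℕ) (hi : 1 ≤ i) (hij : i < j) :
    IsRGF (hill (i + j + 1) i) ∧ IsRGF (hill (i + j + 1) j) ∧
      hill (i + j + 1) i ≠ hill (i + j + 1) j ∧
      ∀ n k : ℕ, (R n k (hill (i + j + 1) i)).ncard = (R n k (hill (i + j + 1) j)).ncard := by
  refine ⟨isRGF_hill hi, isRGF_hill (by omega), ?_, ?_⟩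
  · intro h
    have h1 := congrFun h ⟨i, by omega⟩
    unfold hill at h1
    rw [if_pos rfl, if_neg (by show ¬ (i = j); omega)] at h1
    omega
  · intro n k
    obtain ⟨e, he⟩ := main (m := i + j + 1) rfl hi (by omega) n
    rw [← Nat.card_coe_set_eq, ← Nat.card_coe_set_eq]
    refine Nat.card_congr ⟨fun w => ⟨(e ⟨w.1, w.2.1⟩).1, (e ⟨w.1, w.2.1⟩).2, ?_⟩,
      fun w => ⟨(e.symm ⟨w.1, w.2.1⟩).1, (e.symm ⟨w.1, w.2.1⟩).2, ?_⟩, ?_, ?_⟩
    · rw [he]; exact w.2.2
    · rw [← he, e.apply_symm_apply]; exact w.2.2
    · intro w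
      apply Subtype.ext
      show (e.symm ⟨(e ⟨w.1, w.2.1⟩).1, _⟩).1 = w.1
      rw [Subtype.coe_eta, e.symm_apply_apply]
    · intro w
      apply Subtype.ext
      show (e ⟨(e.symm ⟨w.1, w.2.1⟩).1, _⟩).1 = w.1
      rw [Subtype.coe_eta, e.apply_symm_apply]

end Pool.Agent.Results.MP_2348bc_co.KWilfForEveryK
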